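import Pool.Agent.Helper20.SW.Cone

/-! Row D3 of the cone over a largest plane: a plane and a line not containing the apex have
at most two bad users. -/

namespace H20SW

namespace Cone

open Finset Classical

variable {Y U E G P R : Type} [Fintype Y] [Fintype U] [Fintype E]

/-- the lines of the family that are excluded at `z` -/
noncomputable def Xz (C : Cone Y U E G P R) (J : Finset E) (z : U) : Finset E :=
  J.filter fun l => ¬ C.ok z l

theorem Xz_card (C : Cone Y U E G P R) (J : Finset E) (z : U) :
    C.Jz J z + (C.Xz J z).card = J.card := by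
  unfold Jz Xz
  exact Finset.card_filter_add_card_filter_not _

theorem Xz_inter (C : Cone Y U E G P R) (J : Finset E) {z w : U} (h : C.ray z ≠ C.ray w) :
    (C.Xz J z ∩ C.Xz J w).card ≤ 1 := by
  rw [Finset.card_le_one]
  intro l hl m hm
  simp only [Xz, Finset.mem_inter, Finset.mem_filter] at hl hm
  exact C.ray_bad z w l m h hl.1.2 hl.2.2 hm.1.2 hm.2.2

/-- three users on three different lines through the apex are not all bad -/
theorem no_three_bad (C : Cone Y U E G P R) (J : Finset E) {z w v : U}
    (h1 : C.ray z ≠ C.ray w) (h2 : C.ray z ≠ C.ray v) (h3 : C.ray w ≠ C.ray v)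
    (hz : C.Bad J z) (hw : C.Bad J w) (hv : C.Bad J v) : False := by
  have a1 := C.Xz_inter J h1
  have a2 := C.Xz_inter J h2
  have a3 := C.Xz_inter J h3
  have c1 := C.Xz_card J z
  have c2 := C.Xz_card J w
  have c3 := C.Xz_card J v
  have u1 : (C.Xz J z ∪ C.Xz J w).card + (C.Xz J z ∩ C.Xz J w).card
      = (C.Xz J z).card + (C.Xz J w).card := Finset.card_union_add_card_inter _ _
  have u2 : ((C.Xz J z ∪ C.Xz J w) ∪ C.Xz J v).card
      + ((C.Xz J z ∪ C.Xz J w) ∩ C.Xz J v).card
      = (C.Xz J z ∪ C.Xz J w).card + (C.Xz J v).card := Finset.card_union_add_card_inter _ _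
  have u3 : ((C.Xz J z ∪ C.Xz J w) ∩ C.Xz J v).card ≤ 2 := by
    rw [Finset.union_inter_distrib_right]
    exact (Finset.card_union_le _ _).trans (by omega)
  have u4 : ((C.Xz J z ∪ C.Xz J w) ∪ C.Xz J v).card ≤ J.card := by
    apply Finset.card_le_card
    intro l hl
    simp only [Xz, Finset.mem_union, Finset.mem_filter] at hl
    tauto
  obtain ⟨b0, b1⟩ := hz
  obtain ⟨_, b2⟩ := hw
  obtain ⟨_, b3⟩ := hv
  omega

/-- a plane over an allowed line has at most two bad users -/
theorem bad_pl (C : Cone Y U E G P R) (J : Finset E) (z : U) (l : E) (hl : C.ok z l) :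
    (univ.filter fun w => C.pl w l = C.pl z l ∧ C.Bad J w).card ≤ 2 := by
  by_contra hcon
  obtain ⟨a, b, c, ha, hb, hc, hab, hac, hbc⟩ := Finset.two_lt_card_iff.1 (not_le.1 hcon)
  simp only [Finset.mem_filter, Finset.mem_univ, true_and] at ha hb hc
  have key : ∀ u v : U, C.pl u l = C.pl z l → C.pl v l = C.pl z l → u ≠ v →
      C.ray u ≠ C.ray v := by
    intro u v hu hv huv hr
    exact huv (C.ray_pl u v l hr (C.ok_congr z u l hu.symm hl) (hu.trans hv.symm))
  exact C.no_three_bad J (key a b ha.1 hb.1 hab) (key a c ha.1 hc.1 hac) (key b c hb.1 hc.1 hbc)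
    ha.2 hb.2 hc.2

/-- a line through a point of an allowed line has at most two bad users -/
theorem bad_ln (C : Cone Y U E G P R) (J : Finset E) (z : U) (y : Y) (l : E) (hy : C.on y l)
    (hl : C.ok z l) : (univ.filter fun w => C.ln w y = C.ln z y ∧ C.Bad J w).card ≤ 2 := by
  refine (Finset.card_le_card ?_).trans (C.bad_pl J z l hl)
  intro w hw
  simp only [Finset.mem_filter, Finset.mem_univ, true_and] at hw ⊢
  exact ⟨C.ln_pl w z y l hy hw.1, hw.2⟩

end Cone

end H20SW
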