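import Pool.Agent.Helper86.SW.CaseB2
import Pool.Agent.Helper56.RF.TotalGood
import Pool.Agent.Helper20.SW.Num

/-!
# Case (b) on cones: the mixed rainbow and the swap
-/

set_option autoImplicit false
set_option linter.unusedSectionVars false

namespace Pool.Agent.Helper86.SW

open Finset Classical H20SW

variable {Y U E G P R : Type} [Fintype Y] [Fintype U] [Fintype E]

theorem user_sum (f : U × E → ℝ) (z : U) :
    ∑ v ∈ univ.filter (fun v : U × E => v.1 = z), f v = ∑ l, f (z, l) := by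
  rw [Finset.sum_filter, Fintype.sum_prod_type, Finset.sum_eq_single z]
  · simp
  · intro w _ hw
    refine Finset.sum_eq_zero fun l _ => ?_
    rw [if_neg]
    exact hw
  · intro h
    exact absurd (Finset.mem_univ _) h

theorem user_sum2 (f : (U × E) × (Y × Y) → ℝ) (z : U) :
    ∑ v ∈ univ.filter (fun v : (U × E) × (Y × Y) => v.1.1 = z), f v =
      ∑ l, ∑ q, f ((z, l), q) := by
  rw [← user_sum (fun v => ∑ q, f (v, q)) z, Finset.sum_filter, Fintype.sum_prod_type,
    Finset.sum_filter]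
  refine Finset.sum_congr rfl fun v _ => ?_
  split_ifs
  · rfl
  · simp

theorem user_F (C : Cone Y U E G P R) (Q : Finset Y) (p : ℕ) (z : U) :
    ∑ v ∈ univ.filter (fun v : U × E => v.1 = z), wF C Q p v =
      ∑ l ∈ univ.filter (fun l => C.ok z l ∧ C.Usable p Q l),
        (1 : ℝ) / ((Fintype.card Y : ℝ) - C.tl l) := by
  rw [user_sum, Finset.sum_filter]
  rfl

theorem user_T (C : Cone Y U E G P R) (J : Finset E) (α β : E → Y) (z : U) :
    ∑ v ∈ univ.filter (fun v : (U × E) × (Y × Y) => v.1.1 = z), wT C J α β v =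
      (C.Jz J z : ℝ) / (2 * Fintype.card Y) := by
  rw [user_sum2]
  have h : ∀ l, ∑ q, wT C J α β ((z, l), q) =
      if l ∈ J ∧ C.ok z l then 1 / (2 * (Fintype.card Y : ℝ)) else 0 := qT C J α β z
  rw [Finset.sum_congr rfl fun l _ => h l, ← Finset.sum_filter, Finset.sum_const, nsmul_eq_mul,
    mul_one_div]
  congr 2
  unfold Cone.Jz
  congr 1
  ext l
  simp

theorem user_X (C : Cone Y U E G P R) (Q : Finset Y) (J : Finset E) {p : ℕ} (hp : 3 ≤ p)
    (z : U) (hz : C.Bad J z) :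
    ∑ v ∈ univ.filter (fun v : (U × E) × (Y × Y) => v.1.1 = z), wX C Q J p v =
      ∑ l ∈ univ.filter (fun l => C.ok z l ∧ br C Q p l),
        (1 : ℝ) / ((Fintype.card Y : ℝ) - C.tl l) := by
  rw [user_sum2, Finset.sum_filter]
  refine Finset.sum_congr rfl fun l _ => ?_
  rw [sumX_all C Q J hp]
  by_cases h : C.ok z l ∧ br C Q p l
  · rw [if_pos h, if_pos ⟨hz, h⟩]
  · rw [if_neg h, if_neg (fun h2 => h h2.2)]

/-- the numbers of case (b) -/
theorem num_b {a N s : ℕ} (ha : 3000 ≤ a) (hN : a ^ 40 ≤ N) (hs : s ≤ a ^ 34) :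
    2 / ((N : ℝ) - s) + 2 * ((s : ℝ) * ((a : ℝ) * (1 / (2 * (N : ℝ)))) +
      (s : ℝ) * (((N : ℝ) / (((a ^ 19 : ℕ) : ℝ) - 1)) *
        (4 / (((a ^ 19 : ℕ) : ℝ) * ((N : ℝ) - s))))) ≤ 1 / 2 := by
  have hA : (3000 : ℝ) ≤ a := by exact_mod_cast ha
  have hA0 : (0 : ℝ) < a := by linarith
  have hN' : (a : ℝ) ^ 40 ≤ N := by exact_mod_cast hN
  have hs' : (s : ℝ) ≤ (a : ℝ) ^ 34 := by exact_mod_cast hs
  have hs0 : (0 : ℝ) ≤ s := Nat.cast_nonneg _
  have hcast : ((a ^ 19 : ℕ) : ℝ) = (a : ℝ) ^ 19 := by push_cast; ring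
  rw [hcast]
  set A : ℝ := (a : ℝ) with hAdef
  have p1 : ∀ n : ℕ, 1 ≤ A ^ n := fun n => one_le_pow₀ (by linarith)
  have e35 : A ^ 35 = A ^ 34 * A := pow_succ A 34
  have e36 : A ^ 36 = A ^ 35 * A := pow_succ A 35
  have e40 : A ^ 40 = A ^ 36 * A ^ 4 := by rw [← pow_add]
  have g35 : 3000 * A ^ 34 ≤ A ^ 35 := by rw [e35]; nlinarith [p1 34]
  have g36 : 3000 * A ^ 35 ≤ A ^ 36 := by rw [e36]; nlinarith [p1 35]
  have g40 : A ^ 36 ≤ A ^ 40 := by rw [e40]; nlinarith [p1 36, p1 4]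
  have hN36 : A ^ 36 ≤ N := g40.trans hN'
  have hsN : 3000 * (s : ℝ) ≤ N := by
    have : A ^ 35 ≤ A ^ 36 := by nlinarith [p1 35]
    linarith
  have hNbig : (9000000 : ℝ) ≤ N := by
    have := p1 34
    linarith
  have hd : (N : ℝ) / 2 ≤ (N : ℝ) - s := by linarith
  have hd0 : (0 : ℝ) < (N : ℝ) - s := by linarith
  have hN0 : (0 : ℝ) < N := by linarith
  -- first term
  have t1 : 2 / ((N : ℝ) - s) ≤ 1 / 8 := by
    rw [div_le_div_iff₀ hd0 (by norm_num)]
    linarith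
  -- second term
  have t2 : (s : ℝ) * (A * (1 / (2 * (N : ℝ)))) ≤ 1 / 16 := by
    have : (s : ℝ) * (A * (1 / (2 * (N : ℝ)))) = (s * A) / (2 * N) := by ring
    rw [this, div_le_div_iff₀ (by linarith) (by norm_num)]
    have h1 : (s : ℝ) * A ≤ A ^ 35 := by
      rw [e35]
      exact mul_le_mul_of_nonneg_right hs' hA0.le
    linarith
  -- third term
  have q1 : A ^ 38 = A ^ 19 * A ^ 19 := by rw [← pow_add]
  have q2 : A ^ 38 = A ^ 34 * A ^ 4 := by rw [← pow_add]
  have hq : (256 : ℝ) ≤ A ^ 4 := by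
    have : A ^ 4 = A * A * A * A := by ring
    have h2 : (9000000 : ℝ) ≤ A * A := by nlinarith
    nlinarith
  have hp2 : (2 : ℝ) ≤ A ^ 19 := by
    have : A ^ 19 = A * A ^ 18 := by ring
    rw [this]
    nlinarith [p1 18]
  have hpp : A ^ 38 ≤ 2 * (A ^ 19 * (A ^ 19 - 1)) := by
    rw [q1]
    nlinarith
  have h256 : 256 * (s : ℝ) ≤ A ^ 38 := by
    rw [q2]
    nlinarith [p1 34]
  have t3 : (s : ℝ) * (((N : ℝ) / (A ^ 19 - 1)) * (4 / (A ^ 19 * ((N : ℝ) - s)))) ≤ 1 / 16 := by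
    have hx : 0 < A ^ 19 - 1 := by linarith
    have hy : 0 < A ^ 19 := by linarith
    have e : (s : ℝ) * (((N : ℝ) / (A ^ 19 - 1)) * (4 / (A ^ 19 * ((N : ℝ) - s)))) =
        (4 * s * N) / ((A ^ 19 * (A ^ 19 - 1)) * ((N : ℝ) - s)) := by
      field_simp
    rw [e, div_le_div_iff₀ (by positivity) (by norm_num)]
    have h1 : 128 * (s : ℝ) ≤ A ^ 19 * (A ^ 19 - 1) := by linarith
    have h2 : 128 * (s : ℝ) * (N / 2) ≤ A ^ 19 * (A ^ 19 - 1) * ((N : ℝ) - s) :=
      mul_le_mul h1 hd (by linarith) (by positivity)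
    linarith
  linarith

/-- **row D5**: case (b) -/
theorem case_b (C : Cone Y U E G P R) {a : ℕ} (ha : 3000 ≤ a)
    (hN : a ^ 40 ≤ Fintype.card Y) (hN2 : Fintype.card Y ≤ 2 * a ^ 40) (hs : C.s ≤ a ^ 34)
    {J : Finset E} {α β : E → Y} (hJ : C.Fam (a ^ 19) a J α β)
    (hsmall : a ^ 3 * J.card < 8 * Fintype.card Y)
    (hdef : ∀ z, 1 ≤ C.Fz (a ^ 19) z + (C.Jz J z : ℝ) / (4 * Fintype.card Y)) : C.Good := by
  have hp3000 : 3000 ≤ a ^ 19 := le_trans ha (Nat.le_self_pow (by norm_num) a)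
  have hnum := num_b ha hN hs
  obtain ⟨k1, k2, k3⟩ := H20SW.num_k ha hN2 hs
  have htot := fun z hz => Pool.Agent.Helper56.RF.total_good C ha hN hN2 hs hJ hsmall z (hdef z) hz
  generalize hp : a ^ 19 = p at *
  have hsN : C.s < Fintype.card Y := by
    have h1 : a ^ 34 < a ^ 40 := Nat.pow_lt_pow_right (by omega) (by norm_num)
    omega
  have hp3 : 3 ≤ p := by omega
  set Q := Pool.Agent.Helper78.RF.Q1 J α β with hQ
  have hthin : ∀ l, C.Usable p Q l → l ∉ J := by
    intro l hl hlJ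
    have h1 := hJ.thin l hlJ
    have h2 := hl.1
    omega
  have hN0 : 0 < Fintype.card Y := by omega
  have hN0R : (0 : ℝ) < Fintype.card Y := by exact_mod_cast hN0
  -- the properties of a pair vertex of positive weight
  have hpos : ∀ v : (U × E) × (Y × Y), 0 < wT C J α β v + wX C Q J p v →
      C.ok v.1.1 v.1.2 ∧ C.on v.2.1 v.1.2 ∧ C.on v.2.2 v.1.2 ∧ v.2.1 ≠ v.2.2 ∧ v.2.1 ∈ Q ∧
        v.2.2 ∈ Q ∧ ¬ C.Usable p Q v.1.2 := by
    intro v hv
    by_cases h1 : (v.1.2 ∈ J ∧ C.ok v.1.1 v.1.2) ∧ v.2 = (α v.1.2, β v.1.2)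
    · obtain ⟨⟨h2, h3⟩, h4⟩ := h1
      rw [h4]
      exact ⟨h3, hJ.ona _ h2, hJ.onb _ h2, hJ.ne _ h2, Pool.Agent.Helper78.RF.mem_Q1a h2,
        Pool.Agent.Helper78.RF.mem_Q1b h2, fun h => hthin _ h h2⟩
    · by_cases h2 : (C.Bad J v.1.1 ∧ C.ok v.1.1 v.1.2 ∧ br C Q p v.1.2) ∧
          v.2 ∈ (ql C Q v.1.2).offDiag
      · obtain ⟨⟨-, h3, h4⟩, h5⟩ := h2
        rw [Finset.mem_offDiag] at h5
        obtain ⟨h6, h7, h8⟩ := h5
        exact ⟨h3, (Finset.mem_filter.1 h6).2, (Finset.mem_filter.1 h7).2, h8,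
          (Finset.mem_filter.1 h6).1, (Finset.mem_filter.1 h7).1, h4.2⟩
      · unfold wT wX at hv
        rw [if_neg h1, if_neg h2] at hv
        simp at hv
  obtain ⟨f, f1, f2, f3, f4⟩ := mixed (VF := U × E) (VP := (U × E) × (Y × Y)) (X := U)
    (PP := P) (GG := G) (fun v => v.1) (fun v => C.pl v.1 v.2) (wF C Q p)
    (fun v => v.1.1) (fun v => C.pl v.1.1 v.1.2) (fun v => C.ln v.1.1 v.2.1)
    (fun v => C.ln v.1.1 v.2.2) (fun v => wT C J α β v + wX C Q J p v) (wF_nonneg C Q p)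
    (fun v => add_nonneg (wT_nonneg C J α β v) (wX_nonneg C Q J p v))
    (by
      rintro ⟨z, l⟩ hv
      have h1 : C.ok z l ∧ C.Usable p Q l := by
        by_contra h
        unfold wF at hv
        rw [if_neg h] at hv
        exact lt_irrefl _ hv
      have h2 := load_F C Q p h1.1
      have h3 := load_T_zero C (α := α) (β := β) z (hthin l h1.2)
      have h4 := load_X_zero C (Q := Q) (J := J) hp3 z (l := l) (fun h => h.2 h1.2)
      rw [Finset.sum_add_distrib]
      simp only at h2 h3 h4 ⊢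
      linarith)
    (by
      rintro ⟨⟨z, l⟩, ⟨x, y⟩⟩ hv
      obtain ⟨h1, h2, h3, h4, h5, h6, h7⟩ := hpos _ hv
      simp only at h1 h2 h3 h7
      have c1 := load_F_zero C z h7
      have c2 := load_T C J α β h1
      have c3 := load_X C Q J hp3 hsN h1
      have c4 := line_T C J α β z x (hJ.deg x)
      have c5 := line_T C J α β z y (hJ.deg y)
      have c6 := line_X C Q J hp3 hsN z x
      have c7 := line_X C Q J hp3 hsN z y
      rw [Finset.sum_add_distrib, Finset.sum_add_distrib, Finset.sum_add_distrib]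
      simp only
      linarith)
    (by
      intro z
      rw [Finset.sum_add_distrib]
      have u1 := user_F C Q p z
      have u2 := user_T C J α β z
      rw [u1, u2]
      by_cases hz : C.Bad J z
      · have u3 := user_X C Q J hp3 z hz
        rw [u3]
        have h1 := hdef z
        have h2 : C.Fz p z = ∑ l ∈ univ.filter (fun l => C.ok z l ∧ C.Usable p Q l),
            (1 : ℝ) / ((Fintype.card Y : ℝ) - C.tl l) +
            ∑ l ∈ univ.filter (fun l => C.ok z l ∧ br C Q p l),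
            (1 : ℝ) / ((Fintype.card Y : ℝ) - C.tl l) := by
          unfold Cone.Fz
          rw [← Finset.sum_filter_add_sum_filter_not _ (fun l => C.Usable p Q l),
            Finset.filter_filter, Finset.filter_filter]
          congr 1
          · refine Finset.sum_congr ?_ fun _ _ => rfl
            ext l
            simp only [Finset.mem_filter, Finset.mem_univ, true_and]
            exact ⟨fun h => ⟨h.1.1, h.2⟩, fun h => ⟨⟨h.1, h.2.1⟩, h.2⟩⟩
          · refine Finset.sum_congr ?_ fun _ _ => rfl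
            ext l
            simp only [Finset.mem_filter, Finset.mem_univ, true_and]
            exact ⟨fun h => ⟨h.1.1, h.1.2, h.2⟩, fun h => ⟨⟨h.1, h.2.1⟩, h.2.2⟩⟩
        have h3 : (C.Jz J z : ℝ) / (4 * Fintype.card Y) ≤
            (C.Jz J z : ℝ) / (2 * Fintype.card Y) :=
          div_le_div_of_nonneg_left (Nat.cast_nonneg _) (by linarith) (by linarith)
        linarith
      · have h1 := htot z hz
        have h2 : 0 ≤ ∑ v ∈ univ.filter (fun v : (U × E) × (Y × Y) => v.1.1 = z),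
            wX C Q J p v := Finset.sum_nonneg fun v _ => wX_nonneg C Q J p v
        have h3 : ∑ l ∈ univ.filter (fun l => C.ok z l ∧ C.Usable p Q l),
            (1 : ℝ) / ((Fintype.card Y : ℝ) - C.tl l) =
            ∑ l ∈ univ.filter (fun l => C.ok z l ∧ p ≤ C.tl l ∧
              p ≤ 2 * (univ.filter fun y => C.on y l ∧ y ∉ Q).card),
            (1 : ℝ) / ((Fintype.card Y : ℝ) - C.tl l) := by
          refine Finset.sum_congr ?_ fun _ _ => rfl
          ext l
          simp only [Finset.mem_filter, Finset.mem_univ, true_and]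
          rfl
        rw [h3]
        linarith)
  -- the choice
  have hcase : ∀ z, (∃ l, f z = Sum.inl (z, l) ∧ C.ok z l ∧ C.Usable p Q l) ∨
      ∃ l x y, f z = Sum.inr ((z, l), (x, y)) ∧ C.ok z l ∧ C.on x l ∧ C.on y l ∧ x ≠ y ∧
        x ∈ Q ∧ y ∈ Q ∧ ¬ C.Usable p Q l := by
    intro z
    have g1 := f1 z
    have g2 := f2 z
    rcases hfz : f z with ⟨w, l⟩ | ⟨⟨w, l⟩, ⟨x, y⟩⟩
    · left
      rw [hfz] at g1 g2
      simp only [Sum.elim_inl] at g1 g2
      subst g1
      refine ⟨l, rfl, ?_⟩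
      by_contra h
      unfold wF at g2
      rw [if_neg h] at g2
      exact lt_irrefl _ g2
    · right
      rw [hfz] at g1 g2
      simp only [Sum.elim_inr] at g1 g2
      subst g1
      obtain ⟨h1, h2, h3, h4, h5, h6, h7⟩ := hpos _ g2
      exact ⟨l, x, y, rfl, h1, h2, h3, h4, h5, h6, h7⟩
  let UF : Finset U := univ.filter fun z => (f z).isLeft = true
  let lc : U → E := fun z => Sum.elim (fun v => v.2) (fun v => v.1.2) (f z)
  let xc : U → Y := fun z => Sum.elim (fun v => (C.two v.2).choose) (fun v => v.2.1) (f z)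
  let yc : U → Y := fun z => Sum.elim (fun v => (C.two v.2).choose) (fun v => v.2.2) (f z)
  have hUF : ∀ z, z ∈ UF → ∃ l, f z = Sum.inl (z, l) ∧ C.ok z l ∧ C.Usable p Q l := by
    intro z hz
    rcases hcase z with h | ⟨l, x, y, h, -⟩
    · exact h
    · exfalso
      have := (Finset.mem_filter.1 hz).2
      rw [h] at this
      simp at this
  have hUT : ∀ z, z ∉ UF → ∃ l x y, f z = Sum.inr ((z, l), (x, y)) ∧ C.ok z l ∧ C.on x l ∧
      C.on y l ∧ x ≠ y ∧ x ∈ Q ∧ y ∈ Q ∧ ¬ C.Usable p Q l := by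
    intro z hz
    rcases hcase z with ⟨l, h, -⟩ | h
    · exfalso
      apply hz
      refine Finset.mem_filter.2 ⟨Finset.mem_univ _, ?_⟩
      rw [h]
      rfl
    · exact h
  refine C.good_of_mixed k1 k2 k3 Q UF lc xc yc ?_ ?_ ?_ ?_
  · intro z hz
    obtain ⟨l, h1, h2, h3⟩ := hUF z hz
    simp only [lc, h1, Sum.elim_inl]
    exact ⟨h2, h3⟩
  · intro z hz w hw hzw
    obtain ⟨l, h1, -, -⟩ := hUF z hz
    obtain ⟨m, h1', -, -⟩ := hUF w hw
    have h := f3 z w hzw
    rw [h1, h1'] at h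
    simp only [lc, h1, h1', Sum.elim_inl]
    exact h
  · intro z hz
    obtain ⟨l, x, y, h1, h2⟩ := hUT z hz
    simp only [lc, xc, yc, h1, Sum.elim_inr]
    exact h2
  · intro z w hz hw hzw
    obtain ⟨l, x, y, h1, -⟩ := hUT z hz
    obtain ⟨m, x', y', h1', -⟩ := hUT w hw
    have h := f3 z w hzw
    have h' := f4 z w hzw _ _ h1 h1'
    rw [h1, h1'] at h
    simp only [lc, xc, yc, h1, h1', Sum.elim_inr]
    exact ⟨h, h'.1, h'.2.2.2, h'.2.1⟩

end Pool.Agent.Helper86.SW
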