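import Pool.Agent.Helper86.SW.Mixed
import Pool.Agent.Helper86.SW.Bad
import Pool.Agent.Helper78.RF.Counts
import Pool.Agent.Helper43.RF.Basic
import Pool.Agent.Helper20.SW.Mixed

/-!
# Case (b) on cones: weights and loads of the mixed rainbow
-/

set_option autoImplicit false
set_option linter.unusedSectionVars false

namespace Pool.Agent.Helper86.SW

open Finset Classical H20SW

variable {Y U E G P R : Type} [Fintype Y] [Fintype U] [Fintype E]

/-- fat and broken -/
def br (C : Cone Y U E G P R) (Q : Finset Y) (p : ℕ) (l : E) : Prop :=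
  p ≤ C.tl l ∧ ¬ C.Usable p Q l

/-- the points of a line in `Q` -/
noncomputable def ql (C : Cone Y U E G P R) (Q : Finset Y) (l : E) : Finset Y :=
  Q.filter fun x => C.on x l

theorem br_half {C : Cone Y U E G P R} {Q : Finset Y} {p : ℕ} {l : E} (h : br C Q p l) :
    p < 2 * (ql C Q l).card := by
  have h1 : ¬ p ≤ 2 * C.offc Q l := fun h2 => h.2 ⟨h.1, h2⟩
  exact Pool.Agent.Helper43.RF.broken_half C h.1 (by
    unfold Cone.offc at h1
    omega)

noncomputable def wF (C : Cone Y U E G P R) (Q : Finset Y) (p : ℕ) (v : U × E) : ℝ :=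
  if C.ok v.1 v.2 ∧ C.Usable p Q v.2 then 1 / ((Fintype.card Y : ℝ) - C.tl v.2) else 0

noncomputable def wT (C : Cone Y U E G P R) (J : Finset E) (α β : E → Y)
    (v : (U × E) × (Y × Y)) : ℝ :=
  if (v.1.2 ∈ J ∧ C.ok v.1.1 v.1.2) ∧ v.2 = (α v.1.2, β v.1.2) then
    1 / (2 * (Fintype.card Y : ℝ)) else 0

noncomputable def wX (C : Cone Y U E G P R) (Q : Finset Y) (J : Finset E) (p : ℕ)
    (v : (U × E) × (Y × Y)) : ℝ :=
  if (C.Bad J v.1.1 ∧ C.ok v.1.1 v.1.2 ∧ br C Q p v.1.2) ∧ v.2 ∈ (ql C Q v.1.2).offDiag then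
    1 / (((Fintype.card Y : ℝ) - C.tl v.1.2) *
      (((ql C Q v.1.2).card : ℝ) * (((ql C Q v.1.2).card : ℝ) - 1))) else 0

theorem tl_lt_real {C : Cone Y U E G P R} {z : U} {l : E} (h : C.ok z l) :
    (0 : ℝ) < (Fintype.card Y : ℝ) - C.tl l := by
  have h1 := Pool.Agent.Helper43.RF.tl_lt C h
  have h2 : (C.tl l : ℝ) < Fintype.card Y := by exact_mod_cast h1
  linarith

theorem wF_nonneg (C : Cone Y U E G P R) (Q : Finset Y) (p : ℕ) (v : U × E) :
    0 ≤ wF C Q p v := by
  unfold wF
  split_ifs with h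
  · exact (one_div_pos.2 (tl_lt_real h.1)).le
  · exact le_rfl

theorem wT_nonneg (C : Cone Y U E G P R) (J : Finset E) (α β : E → Y)
    (v : (U × E) × (Y × Y)) : 0 ≤ wT C J α β v := by
  unfold wT
  split_ifs <;> positivity

theorem wX_nonneg (C : Cone Y U E G P R) (Q : Finset Y) (J : Finset E) (p : ℕ)
    (v : (U × E) × (Y × Y)) : 0 ≤ wX C Q J p v := by
  unfold wX
  split_ifs with h
  · have h1 := tl_lt_real h.1.2.1
    have h2 : 2 ≤ (ql C Q v.1.2).card := by
      have := h.2
      rw [Finset.mem_offDiag] at this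
      exact Finset.one_lt_card.2 ⟨_, this.1, _, this.2.1, this.2.2⟩
    have h3 : (2 : ℝ) ≤ (ql C Q v.1.2).card := by exact_mod_cast h2
    apply (one_div_pos.2 (mul_pos h1 (mul_pos (by linarith) (by linarith)))).le
  · exact le_rfl

theorem sumT (C : Cone Y U E G P R) (J : Finset E) (α β : E → Y) (w : U) (m : E)
    (p : Y × Y → Prop) :
    ∑ q, (if p q then wT C J α β ((w, m), q) else 0) =
      if (m ∈ J ∧ C.ok w m) ∧ p (α m, β m) then 1 / (2 * (Fintype.card Y : ℝ)) else 0 := by
  rw [Finset.sum_eq_single (α m, β m)]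
  · by_cases h1 : p (α m, β m)
    · by_cases h2 : m ∈ J ∧ C.ok w m
      · simp [wT, h1, h2]
      · simp [wT, h1, h2]
    · simp [h1]
  · intro q _ hq
    simp [wT, hq]
  · intro h
    exact absurd (Finset.mem_univ _) h

theorem sumX_all (C : Cone Y U E G P R) (Q : Finset Y) (J : Finset E) {p : ℕ} (hp : 3 ≤ p)
    (w : U) (m : E) :
    ∑ q, wX C Q J p ((w, m), q) =
      if C.Bad J w ∧ C.ok w m ∧ br C Q p m then 1 / ((Fintype.card Y : ℝ) - C.tl m) else 0 := by
  by_cases h : C.Bad J w ∧ C.ok w m ∧ br C Q p m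
  · rw [if_pos h]
    have h1 : ∀ q : Y × Y, wX C Q J p ((w, m), q) = if q ∈ (ql C Q m).offDiag then
        1 / (((Fintype.card Y : ℝ) - C.tl m) *
          (((ql C Q m).card : ℝ) * (((ql C Q m).card : ℝ) - 1))) else 0 := by
      intro q
      unfold wX
      by_cases hq : q ∈ (ql C Q m).offDiag
      · rw [if_pos ⟨h, hq⟩, if_pos hq]
      · rw [if_neg (fun h2 => hq h2.2), if_neg hq]
    rw [Finset.sum_congr rfl fun q _ => h1 q, ← Finset.sum_filter, Finset.sum_const,
      nsmul_eq_mul]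
    have h2 : ((univ.filter fun q => q ∈ (ql C Q m).offDiag).card : ℝ) =
        ((ql C Q m).card : ℝ) * (((ql C Q m).card : ℝ) - 1) := by
      have e : (univ.filter fun q => q ∈ (ql C Q m).offDiag) = (ql C Q m).offDiag := by
        ext q
        simp
      rw [e, Finset.offDiag_card, ← Nat.mul_sub_one]
      have h3 := br_half h.2.2
      rw [Nat.cast_mul, Nat.cast_sub (by omega), Nat.cast_one]
    rw [h2]
    have h3 := br_half h.2.2
    have h4 : (2 : ℝ) ≤ (ql C Q m).card := by
      have : 2 ≤ (ql C Q m).card := by omega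
      exact_mod_cast this
    have h5 := tl_lt_real h.2.1
    have h6 : 0 < ((ql C Q m).card : ℝ) * (((ql C Q m).card : ℝ) - 1) :=
      mul_pos (by linarith) (by linarith)
    rw [mul_one_div, div_eq_div_iff (mul_pos h5 h6).ne' h5.ne']
    ring
  · rw [if_neg h]
    refine Finset.sum_eq_zero fun q _ => ?_
    unfold wX
    rw [if_neg (fun h2 => h h2.1)]

theorem sumX_pt (C : Cone Y U E G P R) (Q : Finset Y) (J : Finset E) {p : ℕ} (hp : 3 ≤ p)
    (hs : C.s < Fintype.card Y) (w : U) (m : E) (y : Y) :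
    ∑ q : Y × Y, (if q.1 = y ∨ q.2 = y then wX C Q J p ((w, m), q) else 0) ≤
      if C.on y m ∧ p ≤ C.tl m then 4 / ((p : ℝ) * ((Fintype.card Y : ℝ) - C.s)) else 0 := by
  have hs' : (0 : ℝ) < (Fintype.card Y : ℝ) - C.s := by
    have : (C.s : ℝ) < Fintype.card Y := by exact_mod_cast hs
    linarith
  have hp0 : (0 : ℝ) < p := by
    have : 0 < p := by omega
    exact_mod_cast this
  by_cases h : C.Bad J w ∧ C.ok w m ∧ br C Q p m
  · by_cases hy : C.on y m
    · rw [if_pos ⟨hy, h.2.2.1⟩]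
      have h1 : ∀ q : Y × Y, (if q.1 = y ∨ q.2 = y then wX C Q J p ((w, m), q) else 0) =
          if q ∈ ((ql C Q m).offDiag.filter fun q => q.1 = y ∨ q.2 = y) then
          1 / (((Fintype.card Y : ℝ) - C.tl m) *
            (((ql C Q m).card : ℝ) * (((ql C Q m).card : ℝ) - 1))) else 0 := by
        intro q
        unfold wX
        by_cases hq : q ∈ (ql C Q m).offDiag
        · by_cases hq2 : q.1 = y ∨ q.2 = y
          · rw [if_pos hq2, if_pos ⟨h, hq⟩, if_pos (Finset.mem_filter.2 ⟨hq, hq2⟩)]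
          · have e2 : q ∉ ((ql C Q m).offDiag.filter fun q => q.1 = y ∨ q.2 = y) :=
              fun h2 => hq2 (Finset.mem_filter.1 h2).2
            rw [if_neg hq2, if_neg e2]
        · have e2 : q ∉ ((ql C Q m).offDiag.filter fun q => q.1 = y ∨ q.2 = y) :=
            fun h2 => hq (Finset.mem_filter.1 h2).1
          rw [if_neg e2]
          simp [hq]
      rw [Finset.sum_congr rfl fun q _ => h1 q, ← Finset.sum_filter, Finset.sum_const,
        nsmul_eq_mul]
      have e : (univ.filter fun q => q ∈ ((ql C Q m).offDiag.filter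
          fun q => q.1 = y ∨ q.2 = y)) = ((ql C Q m).offDiag.filter
          fun q => q.1 = y ∨ q.2 = y) := by
        ext q
        simp
      rw [e]
      have h2 := Pool.Agent.Helper78.RF.card_pairs_at (ql C Q m) y
      have h3 := br_half h.2.2
      have h3' : (p : ℝ) ≤ 2 * (ql C Q m).card := by exact_mod_cast h3.le
      have h4 : (2 : ℝ) ≤ (ql C Q m).card := by
        have : 2 ≤ (ql C Q m).card := by omega
        exact_mod_cast this
      have h5 := tl_lt_real h.2.1
      have h5' : (Fintype.card Y : ℝ) - C.s ≤ (Fintype.card Y : ℝ) - C.tl m := by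
        have : (C.tl m : ℝ) ≤ C.s := by exact_mod_cast Pool.Agent.Helper78.RF.tl_le C m
        linarith
      have h6 : ((((ql C Q m).offDiag.filter fun q => q.1 = y ∨ q.2 = y).card : ℕ) : ℝ) ≤
          2 * (((ql C Q m).card : ℝ) - 1) := by
        have h7 : ((((ql C Q m).offDiag.filter fun q => q.1 = y ∨ q.2 = y).card : ℕ) : ℝ) ≤
            ((2 * ((ql C Q m).card - 1) : ℕ) : ℝ) := by exact_mod_cast h2
        rw [Nat.cast_mul, Nat.cast_sub (by omega)] at h7
        push_cast at h7
        exact h7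
      have hk : (0 : ℝ) < (ql C Q m).card := by linarith
      have hk1 : (0 : ℝ) < ((ql C Q m).card : ℝ) - 1 := by linarith
      calc _ ≤ 2 * (((ql C Q m).card : ℝ) - 1) * (1 / (((Fintype.card Y : ℝ) - C.tl m) *
            (((ql C Q m).card : ℝ) * (((ql C Q m).card : ℝ) - 1)))) :=
            mul_le_mul_of_nonneg_right h6
              (one_div_pos.2 (mul_pos h5 (mul_pos hk hk1))).le
        _ = 2 / (((Fintype.card Y : ℝ) - C.tl m) * ((ql C Q m).card : ℝ)) := by
            field_simp
        _ ≤ 4 / ((p : ℝ) * ((Fintype.card Y : ℝ) - C.s)) := by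
            rw [div_le_div_iff₀ (mul_pos h5 hk) (mul_pos hp0 hs')]
            nlinarith [mul_le_mul h5' h3' hp0.le h5.le]
    · have h1 : ∀ q : Y × Y, (if q.1 = y ∨ q.2 = y then wX C Q J p ((w, m), q) else 0) = 0 := by
        intro q
        by_cases hq2 : q.1 = y ∨ q.2 = y
        · rw [if_pos hq2]
          unfold wX
          rw [if_neg]
          rintro ⟨-, h2⟩
          rw [Finset.mem_offDiag] at h2
          rcases hq2 with e | e
          · exact hy (e ▸ (Finset.mem_filter.1 h2.1).2)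
          · exact hy (e ▸ (Finset.mem_filter.1 h2.2.1).2)
        · rw [if_neg hq2]
      rw [Finset.sum_eq_zero fun q _ => h1 q]
      split_ifs <;> positivity
  · have h1 : ∀ q : Y × Y, (if q.1 = y ∨ q.2 = y then wX C Q J p ((w, m), q) else 0) = 0 := by
      intro q
      have e1 : wX C Q J p ((w, m), q) = 0 := by
        unfold wX
        rw [if_neg (fun h2 => h h2.1)]
      rw [e1]
      simp
    rw [Finset.sum_eq_zero fun q _ => h1 q]
    split_ifs <;> positivity

/-- sums over the users of a plane -/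
theorem pl_sum (C : Cone Y U E G P R) (f : U × E → ℝ) (z : U) (l : E) :
    ∑ u ∈ univ.filter (fun u : U × E => C.pl u.1 u.2 = C.pl z l), f u =
      ∑ w ∈ univ.filter (fun w => C.pl w l = C.pl z l), f (w, l) := by
  rw [← Finset.sum_image (f := f) (g := fun w => (w, l)) (s := univ.filter
    (fun w => C.pl w l = C.pl z l)) (by
      intro a _ b _ h
      exact (Prod.mk.inj h).1)]
  refine Finset.sum_congr ?_ fun _ _ => rfl
  ext ⟨w, m⟩
  simp only [Finset.mem_filter, Finset.mem_univ, true_and, Finset.mem_image, Prod.mk.injEq]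
  constructor
  · intro h
    have := C.pl_line _ _ _ _ h
    subst this
    exact ⟨w, h, rfl, rfl⟩
  · rintro ⟨w', h, rfl, rfl⟩
    exact h

theorem pl_sum2 (C : Cone Y U E G P R) (f : (U × E) × (Y × Y) → ℝ) (z : U) (l : E) :
    ∑ u ∈ univ.filter (fun u : (U × E) × (Y × Y) => C.pl u.1.1 u.1.2 = C.pl z l), f u =
      ∑ w ∈ univ.filter (fun w => C.pl w l = C.pl z l), ∑ q, f ((w, l), q) := by
  rw [← pl_sum C (fun v => ∑ q, f (v, q)) z l, Finset.sum_filter, Fintype.sum_prod_type,
    Finset.sum_filter]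
  refine Finset.sum_congr rfl fun v _ => ?_
  split_ifs
  · rfl
  · simp

/-- line loads -/
theorem ln_sum (C : Cone Y U E G P R) (f : (U × E) × (Y × Y) → ℝ) (hf : ∀ v, 0 ≤ f v) (z : U)
    (y : Y) :
    ∑ u ∈ univ.filter (fun u : (U × E) × (Y × Y) => C.ln u.1.1 u.2.1 = C.ln z y ∨
      C.ln u.1.1 u.2.2 = C.ln z y), f u ≤
      ∑ w ∈ univ.filter (fun w => C.ln w y = C.ln z y), ∑ m, ∑ q : Y × Y,
        (if q.1 = y ∨ q.2 = y then f ((w, m), q) else 0) := by
  rw [Finset.sum_filter, Fintype.sum_prod_type, Fintype.sum_prod_type, Finset.sum_filter]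
  refine Finset.sum_le_sum fun w _ => ?_
  by_cases hw : C.ln w y = C.ln z y
  · rw [if_pos hw]
    refine Finset.sum_le_sum fun m _ => Finset.sum_le_sum fun q _ => ?_
    by_cases hq : C.ln w q.1 = C.ln z y ∨ C.ln w q.2 = C.ln z y
    · rw [if_pos hq, if_pos]
      rcases hq with h | h
      · exact Or.inl (C.ln_pt _ _ _ _ h)
      · exact Or.inr (C.ln_pt _ _ _ _ h)
    · rw [if_neg hq]
      split_ifs
      · exact hf _
      · exact le_rfl
  · rw [if_neg hw]
    refine (Finset.sum_eq_zero fun m _ => Finset.sum_eq_zero fun q _ => ?_).le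
    rw [if_neg]
    rintro (h | h)
    · have := C.ln_pt _ _ _ _ h
      rw [this] at h
      exact hw h
    · have := C.ln_pt _ _ _ _ h
      rw [this] at h
      exact hw h

end Pool.Agent.Helper86.SW
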