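import Pool.Agent.Helper86.SW.CaseB1

/-!
# Case (b) on cones: loads
-/

set_option autoImplicit false
set_option linter.unusedSectionVars false

namespace Pool.Agent.Helper86.SW

open Finset Classical H20SW

variable {Y U E G P R : Type} [Fintype Y] [Fintype U] [Fintype E]

theorem load_F (C : Cone Y U E G P R) (Q : Finset Y) (p : ℕ) {z : U} {l : E} (hl : C.ok z l) :
    ∑ u ∈ univ.filter (fun u : U × E => C.pl u.1 u.2 = C.pl z l), wF C Q p u ≤ 1 := by
  rw [pl_sum]
  refine le_trans (Finset.sum_le_sum fun w _ => ?_) (Pool.Agent.Helper43.RF.pl_load C hl)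
  unfold wF
  split_ifs
  · exact le_rfl
  · exact (one_div_pos.2 (tl_lt_real hl)).le

theorem load_F_zero (C : Cone Y U E G P R) {Q : Finset Y} {p : ℕ} (z : U) {l : E}
    (hl : ¬ C.Usable p Q l) :
    ∑ u ∈ univ.filter (fun u : U × E => C.pl u.1 u.2 = C.pl z l), wF C Q p u = 0 := by
  rw [pl_sum]
  refine Finset.sum_eq_zero fun w _ => ?_
  unfold wF
  rw [if_neg (fun h => hl h.2)]

theorem qT (C : Cone Y U E G P R) (J : Finset E) (α β : E → Y) (w : U) (m : E) :
    ∑ q, wT C J α β ((w, m), q) =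
      if m ∈ J ∧ C.ok w m then 1 / (2 * (Fintype.card Y : ℝ)) else 0 := by
  have h := sumT C J α β w m (fun _ => True)
  simpa using h

theorem load_T (C : Cone Y U E G P R) (J : Finset E) (α β : E → Y) {z : U} {l : E}
    (hl : C.ok z l) :
    ∑ u ∈ univ.filter (fun u : (U × E) × (Y × Y) => C.pl u.1.1 u.1.2 = C.pl z l),
      wT C J α β u ≤ 1 / 2 := by
  rw [pl_sum2]
  have h1 := Pool.Agent.Helper78.RF.card_pl_real C z l hl
  have h2 := tl_lt_real hl
  have h0 : (0 : ℝ) ≤ C.tl l := Nat.cast_nonneg _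
  have hN : (0 : ℝ) < Fintype.card Y := by linarith
  calc _ ≤ ∑ w ∈ univ.filter (fun w => C.pl w l = C.pl z l), 1 / (2 * (Fintype.card Y : ℝ)) := by
        refine Finset.sum_le_sum fun w _ => ?_
        rw [qT]
        split_ifs
        · exact le_rfl
        · positivity
    _ = ((univ.filter fun w => C.pl w l = C.pl z l).card : ℝ) / (2 * (Fintype.card Y : ℝ)) := by
        rw [Finset.sum_const, nsmul_eq_mul, mul_one_div]
    _ ≤ 1 / 2 := by
        rw [div_le_div_iff₀ (by positivity) (by norm_num)]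
        linarith

theorem load_T_zero (C : Cone Y U E G P R) {J : Finset E} {α β : E → Y} (z : U) {l : E}
    (hl : l ∉ J) :
    ∑ u ∈ univ.filter (fun u : (U × E) × (Y × Y) => C.pl u.1.1 u.1.2 = C.pl z l),
      wT C J α β u = 0 := by
  rw [pl_sum2]
  refine Finset.sum_eq_zero fun w _ => ?_
  rw [qT, if_neg (fun h => hl h.1)]

theorem load_X (C : Cone Y U E G P R) (Q : Finset Y) (J : Finset E) {p : ℕ} (hp : 3 ≤ p)
    (hs : C.s < Fintype.card Y) {z : U} {l : E} (hl : C.ok z l) :
    ∑ u ∈ univ.filter (fun u : (U × E) × (Y × Y) => C.pl u.1.1 u.1.2 = C.pl z l),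
      wX C Q J p u ≤ 2 / ((Fintype.card Y : ℝ) - C.s) := by
  have hs' : (0 : ℝ) < (Fintype.card Y : ℝ) - C.s := by
    have : (C.s : ℝ) < Fintype.card Y := by exact_mod_cast hs
    linarith
  rw [pl_sum2]
  have h5' : (Fintype.card Y : ℝ) - C.s ≤ (Fintype.card Y : ℝ) - C.tl l := by
    have : (C.tl l : ℝ) ≤ C.s := by exact_mod_cast Pool.Agent.Helper78.RF.tl_le C l
    linarith
  calc _ ≤ ∑ w ∈ univ.filter (fun w => C.pl w l = C.pl z l),
        (if C.Bad J w then 1 / ((Fintype.card Y : ℝ) - C.s) else 0) := by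
        refine Finset.sum_le_sum fun w _ => ?_
        rw [sumX_all C Q J hp]
        by_cases h : C.Bad J w ∧ C.ok w l ∧ br C Q p l
        · rw [if_pos h, if_pos h.1]
          exact one_div_le_one_div_of_le hs' h5'
        · rw [if_neg h]
          split_ifs
          · positivity
          · exact le_rfl
    _ = ((univ.filter fun w => C.pl w l = C.pl z l ∧ C.Bad J w).card : ℝ) *
        (1 / ((Fintype.card Y : ℝ) - C.s)) := by
        rw [← Finset.sum_filter, Finset.filter_filter, Finset.sum_const, nsmul_eq_mul]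
    _ ≤ 2 * (1 / ((Fintype.card Y : ℝ) - C.s)) := by
        refine mul_le_mul_of_nonneg_right ?_ (by positivity)
        exact_mod_cast C.bad_pl J z l hl
    _ = 2 / ((Fintype.card Y : ℝ) - C.s) := by ring

theorem load_X_zero (C : Cone Y U E G P R) {Q : Finset Y} {J : Finset E} {p : ℕ} (hp : 3 ≤ p)
    (z : U) {l : E} (hl : ¬ br C Q p l) :
    ∑ u ∈ univ.filter (fun u : (U × E) × (Y × Y) => C.pl u.1.1 u.1.2 = C.pl z l),
      wX C Q J p u = 0 := by
  rw [pl_sum2]
  refine Finset.sum_eq_zero fun w _ => ?_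
  rw [sumX_all C Q J hp, if_neg (fun h => hl h.2.2)]

theorem line_T (C : Cone Y U E G P R) (J : Finset E) (α β : E → Y) {D : ℕ} (z : U) (y : Y)
    (hD : Cone.dg J α β y ≤ D) :
    ∑ u ∈ univ.filter (fun u : (U × E) × (Y × Y) => C.ln u.1.1 u.2.1 = C.ln z y ∨
      C.ln u.1.1 u.2.2 = C.ln z y), wT C J α β u ≤
      (C.s : ℝ) * ((D : ℝ) * (1 / (2 * (Fintype.card Y : ℝ)))) := by
  refine (ln_sum C _ (wT_nonneg C J α β) z y).trans ?_
  calc _ ≤ ∑ w ∈ univ.filter (fun w => C.ln w y = C.ln z y),
        ((D : ℝ) * (1 / (2 * (Fintype.card Y : ℝ)))) := by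
        refine Finset.sum_le_sum fun w _ => ?_
        calc _ = ∑ m, (if (m ∈ J ∧ C.ok w m) ∧ (α m = y ∨ β m = y) then
                1 / (2 * (Fintype.card Y : ℝ)) else 0) := by
              refine Finset.sum_congr rfl fun m _ => ?_
              convert sumT C J α β w m (fun q => q.1 = y ∨ q.2 = y)
          _ ≤ ∑ m, (if m ∈ J ∧ (α m = y ∨ β m = y) then
                1 / (2 * (Fintype.card Y : ℝ)) else 0) := by
              refine Finset.sum_le_sum fun m _ => ?_
              by_cases h : m ∈ J ∧ (α m = y ∨ β m = y)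
              · rw [if_pos h]
                split_ifs
                · exact le_rfl
                · positivity
              · rw [if_neg h, if_neg (fun h2 => h ⟨h2.1.1, h2.2⟩)]
          _ = ((J.filter fun m => α m = y ∨ β m = y).card : ℝ) *
                (1 / (2 * (Fintype.card Y : ℝ))) := by
              rw [← Finset.sum_filter, Finset.sum_const, nsmul_eq_mul]
              congr 3
              ext m
              simp
          _ ≤ _ := by
              refine mul_le_mul_of_nonneg_right ?_ (by positivity)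
              exact_mod_cast hD
    _ = ((univ.filter fun w => C.ln w y = C.ln z y).card : ℝ) *
        ((D : ℝ) * (1 / (2 * (Fintype.card Y : ℝ)))) := by
        rw [Finset.sum_const, nsmul_eq_mul]
    _ ≤ _ := by
        refine mul_le_mul_of_nonneg_right ?_ (by positivity)
        exact_mod_cast C.card_ln z y

theorem line_X (C : Cone Y U E G P R) (Q : Finset Y) (J : Finset E) {p : ℕ} (hp : 3 ≤ p)
    (hs : C.s < Fintype.card Y) (z : U) (y : Y) :
    ∑ u ∈ univ.filter (fun u : (U × E) × (Y × Y) => C.ln u.1.1 u.2.1 = C.ln z y ∨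
      C.ln u.1.1 u.2.2 = C.ln z y), wX C Q J p u ≤
      (C.s : ℝ) * (((Fintype.card Y : ℝ) / ((p : ℝ) - 1)) *
        (4 / ((p : ℝ) * ((Fintype.card Y : ℝ) - C.s)))) := by
  have hs' : (0 : ℝ) < (Fintype.card Y : ℝ) - C.s := by
    have : (C.s : ℝ) < Fintype.card Y := by exact_mod_cast hs
    linarith
  have hp3 : (3 : ℝ) ≤ p := by exact_mod_cast hp
  have hp0 : (0 : ℝ) < p := by linarith
  have hp1 : (0 : ℝ) < (p : ℝ) - 1 := by linarith
  refine (ln_sum C _ (wX_nonneg C Q J p) z y).trans ?_
  have hk : (0 : ℝ) ≤ 4 / ((p : ℝ) * ((Fintype.card Y : ℝ) - C.s)) := by positivity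
  calc _ ≤ ∑ w ∈ univ.filter (fun w => C.ln w y = C.ln z y),
        (((Fintype.card Y : ℝ) / ((p : ℝ) - 1)) *
          (4 / ((p : ℝ) * ((Fintype.card Y : ℝ) - C.s)))) := by
        refine Finset.sum_le_sum fun w _ => ?_
        calc _ ≤ ∑ m, (if C.on y m ∧ p ≤ C.tl m then
                4 / ((p : ℝ) * ((Fintype.card Y : ℝ) - C.s)) else 0) :=
              Finset.sum_le_sum fun m _ => sumX_pt C Q J hp hs w m y
          _ = ((univ.filter fun m => C.on y m ∧ p ≤ C.tl m).card : ℝ) *
                (4 / ((p : ℝ) * ((Fintype.card Y : ℝ) - C.s))) := by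
              rw [← Finset.sum_filter, Finset.sum_const, nsmul_eq_mul]
          _ ≤ _ := by
              refine mul_le_mul_of_nonneg_right ?_ hk
              rw [le_div_iff₀ hp1]
              have h := Pool.Agent.Helper78.RF.fat_at C p y
              have h' : (((univ.filter fun m => C.on y m ∧ p ≤ C.tl m).card * (p - 1) : ℕ) : ℝ) ≤
                  (Fintype.card Y : ℝ) := by exact_mod_cast h
              rw [Nat.cast_mul, Nat.cast_sub (by omega), Nat.cast_one] at h'
              exact h'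
    _ = ((univ.filter fun w => C.ln w y = C.ln z y).card : ℝ) *
        (((Fintype.card Y : ℝ) / ((p : ℝ) - 1)) *
          (4 / ((p : ℝ) * ((Fintype.card Y : ℝ) - C.s)))) := by
        rw [Finset.sum_const, nsmul_eq_mul]
    _ ≤ _ := by
        refine mul_le_mul_of_nonneg_right ?_ (mul_nonneg (by positivity) hk)
        exact_mod_cast C.card_ln z y

end Pool.Agent.Helper86.SW
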