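import Pool.Agent.Helper63.HM.Hall

/-!
# Rainbow matchings with two kinds of vertices

Fat vertices use one resource (a plane), pair vertices use three (a plane and two lines).
-/

set_option autoImplicit false
set_option linter.unusedSectionVars false

namespace Pool.Agent.Helper86.SW

open Finset Classical

/-- rainbow matchings with finite sets of resources in an arbitrary type -/
theorem rainbow_fin {V X β : Type} [Fintype V] [Finite X] (col : V → X) (res : V → Finset β)
    (w : V → ℝ) (hw0 : ∀ v, 0 ≤ w v)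
    (hw : ∀ v, 0 < w v → ∑ q ∈ res v, ∑ u ∈ univ.filter (fun u => q ∈ res u), w u ≤ 1)
    (hx : ∀ x, 1 ≤ ∑ v ∈ univ.filter (fun v => col v = x), w v) :
    ∃ f : X → V, (∀ x, col (f x) = x) ∧ (∀ x, 0 < w (f x)) ∧
      ∀ x y, x ≠ y → Disjoint (res (f x)) (res (f y)) := by
  let B : Finset β := univ.biUnion res
  have hfin : ∀ p : V → Prop, ∑ᶠ u ∈ {u | p u}, w u = ∑ u ∈ univ.filter p, w u := by
    intro p
    rw [finsum_mem_eq_finite_toFinset_sum _ (Set.toFinite _)]
    congr 1
    ext u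
    simp
  obtain ⟨f, h1, h2, h3⟩ := Pool.Agent.Helper63.HM.rainbow (V := V) (Q := {q // q ∈ B}) (X := X)
    (fun v q => q.1 ∈ res v) col w hw0
    (by
      intro v hv
      refine le_trans (le_of_eq ?_) (hw v hv)
      rw [finsum_mem_eq_finite_toFinset_sum _ (Set.toFinite _)]
      refine Finset.sum_bij (fun q _ => q.1) ?_ ?_ ?_ ?_
      · intro q hq
        simpa using hq
      · intro q _ q' _ h
        exact Subtype.ext h
      · intro q hq
        exact ⟨⟨q, Finset.mem_biUnion.2 ⟨v, Finset.mem_univ _, hq⟩⟩, by simpa using hq, rfl⟩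
      · intro q _
        convert hfin _)
    (by
      intro x
      rw [hfin]
      exact hx x)
  refine ⟨f, h1, h2, fun x y hxy => ?_⟩
  rw [Finset.disjoint_left]
  intro q hq hq'
  exact h3 x y hxy ⟨q, Finset.mem_biUnion.2 ⟨f x, Finset.mem_univ _, hq⟩⟩ ⟨hq, hq'⟩

theorem sum_three {β : Type} (f : β → ℝ) (hf : ∀ q, 0 ≤ f q) (a b c : β) :
    ∑ q ∈ ({a, b, c} : Finset β), f q ≤ f a + f b + f c := by
  have h : ∀ (x : β) (s : Finset β), ∑ q ∈ insert x s, f q ≤ f x + ∑ q ∈ s, f q := by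
    intro x s
    by_cases hx : x ∈ s
    · rw [Finset.insert_eq_of_mem hx]
      linarith [hf x]
    · rw [Finset.sum_insert hx]
  have h1 := h a {b, c}
  have h2 := h b {c}
  rw [Finset.sum_singleton] at h2
  linarith

/-- **mixed rainbow**: `VF` with a plane as its only resource, `VP` with a plane and two lines -/
theorem mixed {VF VP X PP GG : Type} [Fintype VF] [Fintype VP] [Finite X]
    (cF : VF → X) (pF : VF → PP) (wF : VF → ℝ)
    (cP : VP → X) (pP : VP → PP) (l1 l2 : VP → GG) (wP : VP → ℝ)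
    (hF0 : ∀ v, 0 ≤ wF v) (hP0 : ∀ v, 0 ≤ wP v)
    (hF : ∀ v, 0 < wF v → ∑ u ∈ univ.filter (fun u => pF u = pF v), wF u +
      ∑ u ∈ univ.filter (fun u => pP u = pF v), wP u ≤ 1)
    (hP : ∀ v, 0 < wP v → (∑ u ∈ univ.filter (fun u => pF u = pP v), wF u +
      ∑ u ∈ univ.filter (fun u => pP u = pP v), wP u) +
      ∑ u ∈ univ.filter (fun u => l1 u = l1 v ∨ l2 u = l1 v), wP u +
      ∑ u ∈ univ.filter (fun u => l1 u = l2 v ∨ l2 u = l2 v), wP u ≤ 1)
    (hx : ∀ x, 1 ≤ ∑ v ∈ univ.filter (fun v => cF v = x), wF v +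
      ∑ v ∈ univ.filter (fun v => cP v = x), wP v) :
    ∃ f : X → VF ⊕ VP, (∀ x, Sum.elim cF cP (f x) = x) ∧ (∀ x, 0 < Sum.elim wF wP (f x)) ∧
      (∀ x y, x ≠ y → Sum.elim pF pP (f x) ≠ Sum.elim pF pP (f y)) ∧
      ∀ x y, x ≠ y → ∀ u v, f x = Sum.inr u → f y = Sum.inr v →
        l1 u ≠ l1 v ∧ l1 u ≠ l2 v ∧ l2 u ≠ l1 v ∧ l2 u ≠ l2 v := by
  let res : VF ⊕ VP → Finset (PP ⊕ GG) := Sum.elim (fun v => {Sum.inl (pF v)})
    (fun v => {Sum.inl (pP v), Sum.inr (l1 v), Sum.inr (l2 v)})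
  have hw0 : ∀ v : VF ⊕ VP, 0 ≤ Sum.elim wF wP v := by
    rintro (v | v)
    · exact hF0 v
    · exact hP0 v
  have hload : ∀ P : PP, ∑ u ∈ univ.filter (fun u : VF ⊕ VP => (Sum.inl P : PP ⊕ GG) ∈ res u),
      Sum.elim wF wP u = ∑ u ∈ univ.filter (fun u => pF u = P), wF u +
        ∑ u ∈ univ.filter (fun u => pP u = P), wP u := by
    intro P
    rw [Finset.sum_filter, Fintype.sum_sum_type, Finset.sum_filter, Finset.sum_filter]
    congr 1
    · refine Finset.sum_congr rfl fun u _ => ?_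
      simp [res, eq_comm]
    · refine Finset.sum_congr rfl fun u _ => ?_
      simp [res, eq_comm]
  have hload2 : ∀ g : GG, ∑ u ∈ univ.filter (fun u : VF ⊕ VP => (Sum.inr g : PP ⊕ GG) ∈ res u),
      Sum.elim wF wP u = ∑ u ∈ univ.filter (fun u => l1 u = g ∨ l2 u = g), wP u := by
    intro g
    rw [Finset.sum_filter, Fintype.sum_sum_type, Finset.sum_filter]
    have h0 : ∑ a₁ : VF, (if (Sum.inr g : PP ⊕ GG) ∈ res (Sum.inl a₁) then
        Sum.elim wF wP (Sum.inl a₁) else 0) = 0 := by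
      refine Finset.sum_eq_zero fun u _ => ?_
      simp [res]
    rw [h0, zero_add]
    refine Finset.sum_congr rfl fun u _ => ?_
    simp [res, eq_comm]
  obtain ⟨f, h1, h2, h3⟩ := rainbow_fin (Sum.elim cF cP) res (Sum.elim wF wP) hw0
    (by
      rintro (v | v) hv
      · have e : res (Sum.inl v) = {Sum.inl (pF v)} := rfl
        rw [e, Finset.sum_singleton]
        refine le_trans (le_of_eq ?_) (hF v hv)
        convert hload (pF v)
      · have e : res (Sum.inr v) = {Sum.inl (pP v), Sum.inr (l1 v), Sum.inr (l2 v)} := rfl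
        rw [e]
        have h5 := sum_three (fun q => ∑ u ∈ univ.filter (fun u : VF ⊕ VP => q ∈ res u),
          Sum.elim wF wP u) (fun q => Finset.sum_nonneg fun u _ => hw0 u) (Sum.inl (pP v))
          (Sum.inr (l1 v)) (Sum.inr (l2 v))
        have h6 := hP v hv
        rw [← hload, ← hload2, ← hload2] at h6
        refine le_trans (le_of_eq ?_) (h5.trans (le_trans (le_of_eq ?_) h6))
        · congr!
        · congr!)
    (by
      intro x
      rw [Finset.sum_filter, Fintype.sum_sum_type]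
      have := hx x
      rw [Finset.sum_filter, Finset.sum_filter] at this
      exact this)
  refine ⟨f, h1, h2, ?_, ?_⟩
  · intro x y hxy h
    have h4 := h3 x y hxy
    rw [Finset.disjoint_left] at h4
    have h5 : ∀ v : VF ⊕ VP, (Sum.inl (Sum.elim pF pP v) : PP ⊕ GG) ∈ res v := by
      rintro (v | v) <;> simp [res]
    refine h4 (h5 (f x)) ?_
    rw [h]
    exact h5 (f y)
  · intro x y hxy u v hu hv
    have h4 := h3 x y hxy
    rw [hu, hv, Finset.disjoint_left] at h4
    have e1 : (Sum.inr (l1 u) : PP ⊕ GG) ∉ res (Sum.inr v) := h4 (by simp [res])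
    have e2 : (Sum.inr (l2 u) : PP ⊕ GG) ∉ res (Sum.inr v) := h4 (by simp [res])
    simp only [res, Sum.elim_inr, Finset.mem_insert, Finset.mem_singleton, not_or] at e1 e2
    refine ⟨fun h => e1.2.1 (by rw [h]), fun h => e1.2.2 (by rw [h]),
      fun h => e2.2.1 (by rw [h]), fun h => e2.2.2 (by rw [h])⟩

end Pool.Agent.Helper86.SW
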